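import Pool.Agent.H85.ERG.Targets

namespace Pool.Agent.H41.ERG

open MeasureTheory Set Metric Filter Topology Pool.Agent.H85.ERG Pool.Agent.H93.EN
open Pool.Agent.H93.BL hiding T_B1 T_B2 T_B3 T_SB T_SC

variable {ι : Type} {P : Polygon ι}

theorem triv {σ : Option ι} {z : ℂ} (h : ¬ ∃ j, σ = some j ∧ sg P j z ≤ 0) :
    fp P σ z = z ∧ ∀ w, fw P σ z w = w := by
  cases σ with
  | none => exact ⟨rfl, fun _ => rfl⟩
  | some j =>
    have h1 : 0 < sg P j z := not_le.mp (fun h' => h ⟨j, rfl, h'⟩)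
    exact ⟨by simp only [fp, if_pos h1], fun w => by simp only [fw, if_pos h1]⟩

theorem claim (h1 : T_AGP) {x : ℂ} {R : ℝ} {σ σ' : Option ι} (hx : x ∈ P.Ω)
    (c : Chart P x R σ) (c' : Chart P x R σ') {z : ℂ} (hz : z ∈ ball x R) :
    fp P σ z = fp P σ' z ∧ ∀ w, fw P σ z w = fw P σ' z w := by
  by_cases H : ∃ j, σ = some j ∧ sg P j z ≤ 0
  · obtain ⟨j, rfl, hj⟩ := H
    have := h1 ι P x R j σ' hx c c' z hz hj
    subst this
    exact ⟨rfl, fun _ => rfl⟩
  · by_cases H' : ∃ j, σ' = some j ∧ sg P j z ≤ 0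
    · obtain ⟨j, rfl, hj⟩ := H'
      have := h1 ι P x R j σ hx c' c z hz hj
      subst this
      exact ⟨rfl, fun _ => rfl⟩
    · exact ⟨(triv H).1.trans (triv H').1.symm, fun w => ((triv H).2 w).trans ((triv H').2 w).symm⟩

theorem sg_aff (P : Polygon ι) (j : ι) (y : ℂ) : sg P j (P.aff j y) = -sg P j y := by
  unfold sg
  have : P.aff j y - P.p j = P.refl j (y - P.p j) := by
    rw [P.aff_eq]; ring
  rw [this, cr_swap, P.cr_refl_u, cr_swap (P.u j)]

theorem cmp (h1 : T_AGP) (h2 : T_FO) : T_CMP := by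
  intro ι P x R τ x' R' τ' u v c c' hx' hx'Ω huv hv hor
  obtain ⟨_, _, h3⟩ := h2 ι P
  have hxu : x + u ∈ ball x R := by
    rw [mem_ball, dist_eq_norm, add_sub_cancel_left]
    linarith [norm_nonneg v]
  have hy : x + u + v ∈ ball x R := by
    rw [mem_ball, dist_eq_norm, add_assoc, add_sub_cancel_left]
    exact (norm_add_le _ _).trans_lt huv
  have hdu : dist (x + u) x = ‖u‖ := by rw [dist_eq_norm, add_sub_cancel_left]
  obtain ⟨R1, hR1⟩ : ∃ R1, R1 = min (R - ‖u‖) R' := ⟨_, rfl⟩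
  have hvR1 : ‖v‖ < R1 := by
    rw [hR1, lt_min_iff]
    exact ⟨by linarith, hv⟩
  have hR'0 : 0 < R' := lt_of_le_of_lt (norm_nonneg v) hv
  have c1 : Chart P x' R1 τ := by
    rw [hx']
    apply ((h3 x R τ c).1 (x + u) hxu).2.2.2.2 R1
    · rw [hdu]
      have : R1 ≤ R - ‖u‖ := by rw [hR1]; exact min_le_left _ _
      linarith
    · rw [← hx']; exact hx'Ω
  have c2 : Chart P x' R1 τ' := by
    have e := ((h3 x' R' τ' c').2 hx'Ω hR'0).1
    have := ((h3 x' R' τ' c').1 x' (mem_ball_self hR'0)).2.2.2.2 R1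
      (by rw [dist_self, zero_add, hR1]; exact min_le_right _ _) (by rw [e]; exact hx'Ω)
    rwa [e] at this
  by_cases H : ∃ j, τ = some j ∧ sg P j (x + u) ≤ 0
  · obtain ⟨j, rfl, hj⟩ := H
    have hj' : ¬ 0 < sg P j (x + u) := not_lt.mpr hj
    have e1 : x' = P.aff j (x + u) := by
      rw [hx']; simp only [fp, if_neg hj']
    have e2 : ∀ w, fw P (some j) (x + u) w = P.refl j w := fun w => by
      simp only [fw, if_neg hj']
    have e3 : x' + fw P (some j) (x + u) v = P.aff j (x + u + v) := by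
      rw [e2, e1, ← P.aff_add]
    have hball : P.aff j (x + u + v) ∈ ball x' R1 := by
      rw [← e3, mem_ball, dist_eq_norm, add_sub_cancel_left, e2, P.norm_refl]
      exact hvR1
    obtain ⟨k1, k2⟩ := claim h1 hx'Ω c2 c1 hball
    rw [e3] at hor ⊢
    rcases lt_trichotomy (sg P j (x + u + v)) 0 with hs | hs | hs
    · have hs1 : 0 < sg P j (P.aff j (x + u + v)) := by rw [sg_aff]; linarith
      have hs2 : ¬ 0 < sg P j (x + u + v) := not_lt.mpr hs.le
      refine ⟨?_, fun w => ?_⟩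
      · rw [k1]; simp only [fp, if_pos hs1, if_neg hs2]
      · rw [k2, e2]; simp only [fw, if_pos hs1, if_neg hs2]
    · exfalso
      rcases hor with hor | hor
      · exact (((h3 x R (some j) c).1 _ hy).2.2.2.1.mp hor) j rfl hs
      · rw [k1] at hor
        apply (((h3 x' R1 (some j) c1).1 _ hball).2.2.2.1.mp hor) j rfl
        rw [sg_aff, hs, neg_zero]
    · have hs1 : ¬ 0 < sg P j (P.aff j (x + u + v)) := by rw [sg_aff]; linarith
      refine ⟨?_, fun w => ?_⟩
      · rw [k1]; simp only [fp, if_pos hs, if_neg hs1, P.aff_aff]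
      · rw [k2, e2]; simp only [fw, if_pos hs, if_neg hs1, P.refl_refl]
  · obtain ⟨t1, t2⟩ := triv H
    rw [t1] at hx'
    have e3 : x' + fw P τ (x + u) v = x + u + v := by rw [t2, hx']
    rw [e3]
    have hball : x + u + v ∈ ball x' R1 := by
      rw [hx', mem_ball, dist_eq_norm, add_sub_cancel_left]
      exact hvR1
    obtain ⟨k1, k2⟩ := claim h1 hx'Ω c2 c1 hball
    exact ⟨k1, fun w => by rw [t2, k2]⟩

end Pool.Agent.H41.ERG
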