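import Pool.Agent.H85.ERG.Targets

namespace Pool.Agent.H41.ERG

open MeasureTheory Set Metric Filter Topology Pool.Agent.H85.ERG Pool.Agent.H93.EN
open Pool.Agent.H93.BL hiding T_B1 T_B2 T_B3 T_SB T_SC

theorem st2 (h1 : T_CMP) (h2 : T_FO) : T_ST2 := by
  intro ι P κ hLS a r ha har x w x₁ w₁ hw hrx hrx1 hMv α e x' w' hx'Ω hα he
  obtain ⟨hκ, _, hLSx, _⟩ := hLS
  obtain ⟨hxΩ, hx1Ω, _, _, τ0, c0, hx1, hw1⟩ := hMv
  obtain ⟨f1, _, f3⟩ := h2 ι P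
  obtain ⟨τ1, c1⟩ := hLSx x₁ hx1Ω
  have hrh1 : infDist x₁ (VV P) = rh P x₁ := rfl
  rw [hrh1] at c1
  obtain ⟨h, hh⟩ : ∃ h : ℝ, h = κ * a / 128 := ⟨_, rfl⟩
  rw [← hh] at hx1 hw1 ⊢
  have hh0 : 0 < h := by rw [hh]; positivity
  have hR : 2 * (κ * r) ≤ κ * rh P x := by
    have := mul_le_mul_of_nonneg_left hrx hκ.le
    linarith
  have hR1 : 2 * (κ * r) ≤ κ * rh P x₁ := by
    have := mul_le_mul_of_nonneg_left hrx1 hκ.le
    linarith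
  have hκa : κ * a ≤ κ * r := mul_le_mul_of_nonneg_left har hκ.le
  have hκr : 0 < κ * r := mul_pos hκ (ha.trans_le har)
  have hnu : ‖(h : ℂ) * w‖ = h := by
    rw [norm_mul, hw, mul_one, Complex.norm_real, Real.norm_of_nonneg hh0.le]
  have hnα : ∀ (t : ℝ) (v : ℂ), ‖v‖ = 1 → ‖(t : ℂ) * v‖ = |t| := by
    intro t v hv
    rw [norm_mul, hv, mul_one, Complex.norm_real, Real.norm_eq_abs]
  have hfn : ∀ v, ‖fw P τ0 (x + (h : ℂ) * w) v‖ = ‖v‖ := fun v => (f1 τ0 _ v).1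
  have hfi : ∀ v, fw P τ0 (x + (h : ℂ) * w) (fw P τ0 (x + (h : ℂ) * w) v) = v :=
    fun v => (f1 τ0 _ v).2.1
  have hfa : ∀ v v', fw P τ0 (x + (h : ℂ) * w) (v + v') =
      fw P τ0 (x + (h : ℂ) * w) v + fw P τ0 (x + (h : ℂ) * w) v' := fun v => (f1 τ0 _ v).2.2.1
  have hfs : ∀ (t : ℝ) v, fw P τ0 (x + (h : ℂ) * w) ((t : ℂ) * v) =
      (t : ℂ) * fw P τ0 (x + (h : ℂ) * w) v := fun t v => (f1 τ0 _ v).2.2.2 t
  have hw1n : ‖w₁‖ = 1 := by rw [hw1, hfn, hw]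
  have hαr : |α| ≤ κ * r / 32 := by linarith
  have hhr : h ≤ κ * r / 128 := by rw [hh]; linarith
  refine ⟨?_, ?_⟩
  · rintro ⟨τ, c, hx', hw'⟩
    -- the same point in the chart `τ0`
    have hRpos : 0 < κ * rh P x := by linarith
    obtain ⟨g1, g2⟩ := (f3 x _ τ c).2 hxΩ hRpos
    have hv : ‖(α : ℂ) * w + e‖ < κ * rh P x := by
      calc ‖(α : ℂ) * w + e‖ ≤ ‖(α : ℂ) * w‖ + ‖e‖ := norm_add_le _ _
        _ < κ * rh P x := by rw [hnα α w hw]; linarith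
    have k1 := h1 ι P x _ τ x _ τ0 0 ((α : ℂ) * w + e) c c0 (by rw [add_zero, g1]) hxΩ
      (by rw [norm_zero, zero_add]; exact hv) hv
      (Or.inl (by rw [add_zero, ← add_assoc, ← hx']; exact hx'Ω))
    simp only [add_zero, g2] at k1
    rw [← add_assoc, ← hx'] at k1
    -- change of the base state
    have e0 : x + (h : ℂ) * w + (((α - h : ℝ) : ℂ) * w + e) = x + (α : ℂ) * w + e := by
      push_cast; ring
    have hV : ‖((α - h : ℝ) : ℂ) * w + e‖ ≤ |α| + h + ‖e‖ := by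
      calc _ ≤ ‖((α - h : ℝ) : ℂ) * w‖ + ‖e‖ := norm_add_le _ _
        _ ≤ |α| + h + ‖e‖ := by
          rw [hnα _ w hw]
          have : |α - h| ≤ |α| + |h| := abs_sub _ _
          rw [abs_of_pos hh0] at this
          linarith
    have k2 := h1 ι P x _ τ0 x₁ _ τ1 ((h : ℂ) * w) (((α - h : ℝ) : ℂ) * w + e) c0 c1 hx1 hx1Ω
      (by rw [hnu]; linarith) (by linarith)
      (Or.inl (by rw [e0, k1.1]; exact hx'Ω))
    rw [e0, k1.1, hfa, hfs, ← hw1, ← add_assoc] at k2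
    refine ⟨fw P τ0 (x + (h : ℂ) * w) e, hfn e, τ1, c1, k2.1.symm, ?_⟩
    have k3 := k2.2 w
    rw [← hw1] at k3
    rw [k3, k1.2, ← hw']
  · rintro ⟨τ, c, hx', hw'⟩
    have e1 : fw P τ0 (x + (h : ℂ) * w) ((α : ℂ) * w₁ + e) =
        (α : ℂ) * w + fw P τ0 (x + (h : ℂ) * w) e := by
      rw [hfa, hfs, hw1, hfi]
    have e2 : fw P τ0 (x + (h : ℂ) * w) ((α : ℂ) * w + fw P τ0 (x + (h : ℂ) * w) e) =
        (α : ℂ) * w₁ + e := by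
      rw [hfa, hfs, hfi, ← hw1]
    have hV : ‖(α : ℂ) * w + fw P τ0 (x + (h : ℂ) * w) e‖ ≤ |α| + ‖e‖ := by
      calc _ ≤ ‖(α : ℂ) * w‖ + ‖fw P τ0 (x + (h : ℂ) * w) e‖ := norm_add_le _ _
        _ = |α| + ‖e‖ := by rw [hnα _ w hw, hfn]
    have k2 := h1 ι P x _ τ0 x₁ _ τ ((h : ℂ) * w)
      ((α : ℂ) * w + fw P τ0 (x + (h : ℂ) * w) e) c0 c hx1 hx1Ω
      (by rw [hnu]; linarith) (by linarith)
      (Or.inr (by rw [e2, ← add_assoc, ← hx']; exact hx'Ω))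
    rw [e2, ← add_assoc x₁, ← hx'] at k2
    have e3 : x + (h : ℂ) * w + ((α : ℂ) * w + fw P τ0 (x + (h : ℂ) * w) e) =
        x + ((α + h : ℝ) : ℂ) * w + fw P τ0 (x + (h : ℂ) * w) e := by
      push_cast; ring
    rw [e3] at k2
    refine ⟨fw P τ0 (x + (h : ℂ) * w) e, hfn e, τ0, c0, k2.1, ?_⟩
    rw [← k2.2 w, ← hw1, hw']

end Pool.Agent.H41.ERG
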